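import Mathlib

set_option autoImplicit false

open MeasureTheory Set Filter
open scoped ENNReal Topology

namespace Pool.Agent.Lib.MP_6e3e44_an

/-! ### The spaces and maps of the problem -/

/-- Lebesgue measure on the unit interval `[0,1]`. -/
noncomputable abbrev muI : Measure ℝ := volume.restrict (Icc (0 : ℝ) 1)

/-- The `L^p[0,1]` norm, as a real number, of an almost-everywhere class of measurable
functions. -/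
noncomputable def nrm (p : ℝ≥0∞) (f : ℝ →ₘ[muI] ℂ) : ℝ := (eLpNorm f p muI).toReal

/-- `U` is a (possibly nonlinear) map from `L^β` into `L^β` which also maps `L^α` into `L^α`
(here `L^α ⊆ L^β`), is Lipschitz on `L^β` with constant `M₀` and Lipschitz on `L^α` with
constant `M₁`. -/
structure Admissible (β α : ℝ≥0∞) (M₀ M₁ : ℝ) (U : Lp ℂ β muI → Lp ℂ β muI) : Prop where
  lip_beta : ∀ x y : Lp ℂ β muI, nrm β (U x - U y : Lp ℂ β muI) ≤ M₀ * nrm β (x - y : Lp ℂ β muI)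
  maps_alpha : ∀ x : Lp ℂ β muI, (x : ℝ →ₘ[muI] ℂ) ∈ Lp ℂ α muI →
    (U x : ℝ →ₘ[muI] ℂ) ∈ Lp ℂ α muI
  lip_alpha : ∀ x y : Lp ℂ β muI, (x : ℝ →ₘ[muI] ℂ) ∈ Lp ℂ α muI →
    (y : ℝ →ₘ[muI] ℂ) ∈ Lp ℂ α muI →
    nrm α (U x - U y : Lp ℂ β muI) ≤ M₁ * nrm α (x - y : Lp ℂ β muI)

/-- `L^γ[0,1]` is a Lipschitz interpolation space with constant `C` between `L^β[0,1]` and
`L^α[0,1]`. -/
def IsLipschitzInterpolation (β γ α : ℝ≥0∞) (C : ℝ) : Prop :=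
  ∀ (M₀ M₁ : ℝ) (U : Lp ℂ β muI → Lp ℂ β muI), Admissible β α M₀ M₁ U →
    (∀ x : Lp ℂ β muI, (x : ℝ →ₘ[muI] ℂ) ∈ Lp ℂ γ muI → (U x : ℝ →ₘ[muI] ℂ) ∈ Lp ℂ γ muI) ∧
    ∀ x y : Lp ℂ β muI, (x : ℝ →ₘ[muI] ℂ) ∈ Lp ℂ γ muI → (y : ℝ →ₘ[muI] ℂ) ∈ Lp ℂ γ muI →
      nrm γ (U x - U y : Lp ℂ β muI) ≤ C * max M₀ M₁ * nrm γ (x - y : Lp ℂ β muI)

end Pool.Agent.Lib.MP_6e3e44_an
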