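import Mathlib
import Pool.Agent.Lib.MP_6e3e44_an.Defs

set_option autoImplicit false

open MeasureTheory Set Filter
open scoped ENNReal Topology

namespace Pool.Agent.Lib.MP_6e3e44_an

section Calculus

lemma low_integral {a s : ℝ} (ha : 0 ≤ a) (hs : -1 < s) :
    ∫⁻ t in Ioi (0:ℝ), (Iio a).indicator (fun t => ENNReal.ofReal (t ^ s)) t
      = ENNReal.ofReal (a ^ (s + 1) / (s + 1)) := by
  rw [lintegral_indicator measurableSet_Iio, Measure.restrict_restrict measurableSet_Iio]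
  have hset : Iio a ∩ Ioi 0 = Ioo 0 a := by
    ext t; simp only [mem_inter_iff, mem_Iio, mem_Ioi, mem_Ioo]; tauto
  rw [hset]
  have hint : IntervalIntegrable (fun t : ℝ => t ^ s) volume 0 a :=
    intervalIntegral.intervalIntegrable_rpow' hs
  have hint' : IntegrableOn (fun t : ℝ => t ^ s) (Ioo 0 a) volume :=
    ((intervalIntegrable_iff_integrableOn_Ioo_of_le ha).1 hint)
  rw [← ofReal_integral_eq_lintegral_ofReal hint']
  · congr 1
    rw [← integral_Ioc_eq_integral_Ioo, ← intervalIntegral.integral_of_le ha,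
      integral_rpow (Or.inl hs)]
    rw [Real.zero_rpow (by linarith), sub_zero]
  · filter_upwards [self_mem_ae_restrict (measurableSet_Ioo : MeasurableSet (Ioo (0:ℝ) a))]
      with t ht
    exact Real.rpow_nonneg ht.1.le s

lemma high_integral {a s : ℝ} (ha : 0 < a) (hs : s < -1) :
    ∫⁻ t in Ioi (0:ℝ), (Ici a).indicator (fun t => ENNReal.ofReal (t ^ s)) t
      = ENNReal.ofReal (-a ^ (s + 1) / (s + 1)) := by
  rw [lintegral_indicator measurableSet_Ici, Measure.restrict_restrict measurableSet_Ici]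
  have hset : Ici a ∩ Ioi 0 = Ici a := by
    ext t; simp only [mem_inter_iff, mem_Ici, mem_Ioi]
    constructor
    · exact fun h => h.1
    · exact fun h => ⟨h, lt_of_lt_of_le ha h⟩
  rw [hset, ← restrict_Ioi_eq_restrict_Ici]
  rw [← ofReal_integral_eq_lintegral_ofReal (integrableOn_Ioi_rpow_of_lt hs ha)]
  · rw [integral_Ioi_rpow_of_lt hs ha]
  · filter_upwards [self_mem_ae_restrict (measurableSet_Ioi : MeasurableSet (Ioi a))] with t ht
    exact Real.rpow_nonneg (ha.trans ht).le s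

end Calculus

section Interp

variable {Ω : Type*} [MeasurableSpace Ω] {μ : Measure Ω} [SFinite μ]

lemma low_part {G : Ω → ℝ} (hG : Measurable G) (hG0 : ∀ ω, 0 ≤ G ω) {b c : ℝ} (hb : 0 < b)
    (hbc : b < c) :
    ∫⁻ t in Ioi (0:ℝ), ENNReal.ofReal (t ^ (c - 1 - b)) *
        ∫⁻ ω in {ω | t < G ω}, ENNReal.ofReal (G ω ^ b) ∂μ
      = ENNReal.ofReal (1 / (c - b)) * ∫⁻ ω, ENNReal.ofReal (G ω ^ c) ∂μ := by
  have hmeas : Measurable (fun q : ℝ × Ω => (Iio (G q.2)).indicator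
      (fun t => ENNReal.ofReal (t ^ (c - 1 - b))) q.1 * ENNReal.ofReal (G q.2 ^ b)) := by
    have h1 : MeasurableSet {q : ℝ × Ω | q.1 < G q.2} :=
      measurableSet_lt measurable_fst (hG.comp measurable_snd)
    have h3 : Measurable (fun q : ℝ × Ω =>
        ENNReal.ofReal (q.1 ^ (c - 1 - b)) * ENNReal.ofReal (G q.2 ^ b)) :=
      (measurable_fst.pow_const _).ennreal_ofReal.mul
        ((hG.comp measurable_snd).pow_const _).ennreal_ofReal
    have h2 := h3.indicator h1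
    convert h2 using 2 with q
    by_cases h : q.1 < G q.2
    · simp [indicator, h]
    · simp [indicator, h]
  have step1 : ∀ t : ℝ, ENNReal.ofReal (t ^ (c - 1 - b)) *
        ∫⁻ ω in {ω | t < G ω}, ENNReal.ofReal (G ω ^ b) ∂μ
      = ∫⁻ ω, (Iio (G ω)).indicator
      (fun t => ENNReal.ofReal (t ^ (c - 1 - b))) t * ENNReal.ofReal (G ω ^ b) ∂μ := by
    intro t
    have hset : MeasurableSet {ω | t < G ω} := measurableSet_lt measurable_const hG
    rw [← lintegral_indicator hset, ← lintegral_const_mul]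
    · refine lintegral_congr fun ω => ?_
      by_cases h : t < G ω
      · simp [indicator, h]
      · simp [indicator, h]
    · exact ((hG.pow_const _).ennreal_ofReal).indicator hset
  simp_rw [step1]
  rw [lintegral_lintegral_swap hmeas.aemeasurable, ← lintegral_const_mul _
    ((hG.pow_const _).ennreal_ofReal)]
  refine lintegral_congr fun ω => ?_
  rw [lintegral_mul_const' _ _ ENNReal.ofReal_ne_top, low_integral (hG0 ω) (by linarith),
    ← ENNReal.ofReal_mul (by have := hG0 ω; have : 0 < c - 1 - b + 1 := by linarith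
                             positivity), ← ENNReal.ofReal_mul (by
                             have : 0 < c - b := by linarith
                             positivity)]
  congr 1
  rcases eq_or_lt_of_le (hG0 ω) with h0 | h0
  · rw [← h0, Real.zero_rpow (by linarith), Real.zero_rpow (by linarith), Real.zero_rpow
      (by linarith)]; ring
  · have : c - 1 - b + 1 = c - b := by ring
    rw [this, div_mul_eq_mul_div, ← Real.rpow_add h0]
    have : c - b + b = c := by ring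
    rw [this]; ring

lemma high_part {G : Ω → ℝ} (hG : Measurable G) (hG0 : ∀ ω, 0 ≤ G ω) {a c : ℝ} (hc : 0 < c)
    (hca : c < a) :
    ∫⁻ t in Ioi (0:ℝ), ENNReal.ofReal (t ^ (c - 1 - a)) *
        ∫⁻ ω in {ω | G ω ≤ t}, ENNReal.ofReal (G ω ^ a) ∂μ
      = ENNReal.ofReal (1 / (a - c)) * ∫⁻ ω, ENNReal.ofReal (G ω ^ c) ∂μ := by
  have hmeas : Measurable (fun q : ℝ × Ω => (Ici (G q.2)).indicator
      (fun t => ENNReal.ofReal (t ^ (c - 1 - a))) q.1 * ENNReal.ofReal (G q.2 ^ a)) := by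
    have h1 : MeasurableSet {q : ℝ × Ω | G q.2 ≤ q.1} :=
      measurableSet_le (hG.comp measurable_snd) measurable_fst
    have h3 : Measurable (fun q : ℝ × Ω =>
        ENNReal.ofReal (q.1 ^ (c - 1 - a)) * ENNReal.ofReal (G q.2 ^ a)) :=
      (measurable_fst.pow_const _).ennreal_ofReal.mul
        ((hG.comp measurable_snd).pow_const _).ennreal_ofReal
    have h2 := h3.indicator h1
    convert h2 using 2 with q
    by_cases h : G q.2 ≤ q.1
    · simp [indicator, h]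
    · simp [indicator, h]
  have step1 : ∀ t : ℝ, ENNReal.ofReal (t ^ (c - 1 - a)) *
        ∫⁻ ω in {ω | G ω ≤ t}, ENNReal.ofReal (G ω ^ a) ∂μ
      = ∫⁻ ω, (Ici (G ω)).indicator
      (fun t => ENNReal.ofReal (t ^ (c - 1 - a))) t * ENNReal.ofReal (G ω ^ a) ∂μ := by
    intro t
    have hset : MeasurableSet {ω | G ω ≤ t} := measurableSet_le hG measurable_const
    rw [← lintegral_indicator hset, ← lintegral_const_mul]
    · refine lintegral_congr fun ω => ?_
      by_cases h : G ω ≤ t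
      · simp [indicator, h]
      · simp [indicator, h]
    · exact ((hG.pow_const _).ennreal_ofReal).indicator hset
  simp_rw [step1]
  rw [lintegral_lintegral_swap hmeas.aemeasurable, ← lintegral_const_mul _
    ((hG.pow_const _).ennreal_ofReal)]
  refine lintegral_congr fun ω => ?_
  rw [lintegral_mul_const' _ _ ENNReal.ofReal_ne_top]
  rcases eq_or_lt_of_le (hG0 ω) with h0 | h0
  · rw [← h0, Real.zero_rpow (by linarith), Real.zero_rpow (by linarith)]; simp
  · rw [high_integral h0 (by linarith)]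
    have h3 : -G ω ^ (c - 1 - a + 1) / (c - 1 - a + 1) = G ω ^ (c - a) / (a - c) := by
      have : c - 1 - a + 1 = c - a := by ring
      rw [this, ← neg_sub a c, neg_div_neg_eq]
    rw [h3, ← ENNReal.ofReal_mul (by have : 0 < a - c := by linarith
                                     positivity), ← ENNReal.ofReal_mul (by
                             have : 0 < a - c := by linarith
                             positivity)]
    congr 1
    rw [div_mul_eq_mul_div, ← Real.rpow_add h0]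
    have : c - a + a = c := by ring
    rw [this]; ring

/-- The distributional form of the interpolation inequality. -/
lemma interp_distribution {f G : Ω → ℝ} (hf : Measurable f) (hf0 : ∀ ω, 0 ≤ f ω)
    (hG : Measurable G) (hG0 : ∀ ω, 0 ≤ G ω) {b c a : ℝ} (hb : 0 < b) (hbc : b < c) (hca : c < a)
    (H : ∀ t : ℝ, 0 < t → μ {ω | t < f ω} ≤
      ENNReal.ofReal (t ^ (-b)) * ∫⁻ ω in {ω | t < G ω}, ENNReal.ofReal (G ω ^ b) ∂μ
      + ENNReal.ofReal (t ^ (-a)) * ∫⁻ ω in {ω | G ω ≤ t}, ENNReal.ofReal (G ω ^ a) ∂μ) :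
    ∫⁻ ω, ENNReal.ofReal (f ω ^ c) ∂μ ≤
      ENNReal.ofReal (c * (1 / (c - b) + 1 / (a - c))) * ∫⁻ ω, ENNReal.ofReal (G ω ^ c) ∂μ := by
  have hc : 0 < c := hb.trans hbc
  rw [lintegral_rpow_eq_lintegral_meas_lt_mul μ (Eventually.of_forall hf0) hf.aemeasurable hc]
  have h1 : ∫⁻ t in Ioi (0:ℝ), μ {ω | t < f ω} * ENNReal.ofReal (t ^ (c - 1)) ≤
      ∫⁻ t in Ioi (0:ℝ), (ENNReal.ofReal (t ^ (c - 1 - b)) *
        ∫⁻ ω in {ω | t < G ω}, ENNReal.ofReal (G ω ^ b) ∂μ +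
        ENNReal.ofReal (t ^ (c - 1 - a)) *
        ∫⁻ ω in {ω | G ω ≤ t}, ENNReal.ofReal (G ω ^ a) ∂μ) := by
    refine setLIntegral_mono' measurableSet_Ioi fun t ht => ?_
    have ht0 : (0:ℝ) < t := ht
    calc μ {ω | t < f ω} * ENNReal.ofReal (t ^ (c - 1))
        ≤ (ENNReal.ofReal (t ^ (-b)) * ∫⁻ ω in {ω | t < G ω}, ENNReal.ofReal (G ω ^ b) ∂μ
      + ENNReal.ofReal (t ^ (-a)) * ∫⁻ ω in {ω | G ω ≤ t}, ENNReal.ofReal (G ω ^ a) ∂μ)
          * ENNReal.ofReal (t ^ (c - 1)) := by gcongr; exact H t ht0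
      _ = _ := by
        rw [add_mul]
        congr 1
        · rw [mul_right_comm, ← ENNReal.ofReal_mul (by positivity), ← Real.rpow_add ht0]
          congr 3; ring
        · rw [mul_right_comm, ← ENNReal.ofReal_mul (by positivity), ← Real.rpow_add ht0]
          congr 3; ring
  have hmeasL : Measurable (fun t : ℝ => ENNReal.ofReal (t ^ (c - 1 - b)) *
        ∫⁻ ω in {ω | t < G ω}, ENNReal.ofReal (G ω ^ b) ∂μ) := by
    refine Measurable.mul (by fun_prop) ?_
    refine Antitone.measurable ?_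
    intro s t hst
    refine lintegral_mono_set ?_
    intro ω hω
    exact lt_of_le_of_lt hst hω
  calc ENNReal.ofReal c * ∫⁻ t in Ioi (0:ℝ), μ {ω | t < f ω} * ENNReal.ofReal (t ^ (c - 1))
      ≤ ENNReal.ofReal c * (ENNReal.ofReal (1 / (c - b)) * ∫⁻ ω, ENNReal.ofReal (G ω ^ c) ∂μ
        + ENNReal.ofReal (1 / (a - c)) * ∫⁻ ω, ENNReal.ofReal (G ω ^ c) ∂μ) := by
        gcongr
        refine h1.trans ?_
        rw [lintegral_add_left hmeasL, low_part hG hG0 hb hbc, high_part hG hG0 hc hca]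
    _ = _ := by
        have h2 : 0 < c - b := by linarith
        have h3 : 0 < a - c := by linarith
        rw [← add_mul, ← mul_assoc, ← ENNReal.ofReal_add (by positivity) (by positivity),
          ← ENNReal.ofReal_mul hc.le]

end Interp

section Main

lemma eLpNorm_eq_ofReal_nrm {p : ℝ≥0∞} {f : ℝ →ₘ[muI] ℂ} (hf : f ∈ Lp ℂ p muI) :
    eLpNorm f p muI = ENNReal.ofReal (nrm p f) := by
  unfold nrm
  rw [ENNReal.ofReal_toReal]
  exact (Lp.mem_Lp_iff_eLpNorm_lt_top.1 hf).ne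

lemma nrm_nonneg (p : ℝ≥0∞) (f : ℝ →ₘ[muI] ℂ) : 0 ≤ nrm p f := ENNReal.toReal_nonneg

/-- membership in a smaller exponent space -/
lemma mem_of_le {p q : ℝ≥0∞} (hpq : p ≤ q) {f : ℝ →ₘ[muI] ℂ} (hf : f ∈ Lp ℂ q muI) :
    f ∈ Lp ℂ p muI := by
  rw [Lp.mem_Lp_iff_memLp] at hf ⊢
  exact hf.mono_exponent hpq

variable {β α : ℝ≥0∞} {M₀ M₁ : ℝ} {U : Lp ℂ β muI → Lp ℂ β muI}

lemma const_nonneg [Fact (1 ≤ β)] (hα : 1 ≤ α) (hU : Admissible β α M₀ M₁ U) :
    0 ≤ M₀ ∧ 0 ≤ M₁ := by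
  have hβ : (1 : ℝ≥0∞) ≤ β := Fact.out
  have hmem : ∀ p, MemLp (fun _ : ℝ => (1 : ℂ)) p muI := fun p => memLp_const 1
  set e : Lp ℂ β muI := (hmem β).toLp _ with he
  have hee : (e : ℝ →ₘ[muI] ℂ) =ᵐ[muI] fun _ => (1 : ℂ) := (hmem β).coeFn_toLp
  have hmu : muI ≠ 0 := by
    intro h
    have : muI univ = 0 := by rw [h]; simp
    simp [muI] at this
  have hmu1 : muI univ = 1 := by simp [muI]
  have hn : ∀ p : ℝ≥0∞, p ≠ 0 → nrm p e = 1 := by
    intro p hp
    unfold nrm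
    rw [eLpNorm_congr_ae hee, eLpNorm_const _ hp hmu, hmu1]
    simp
  have heα : (e : ℝ →ₘ[muI] ℂ) ∈ Lp ℂ α muI := by
    rw [Lp.mem_Lp_iff_memLp]
    exact (hmem α).ae_eq hee.symm
  have h0α : ((0 : Lp ℂ β muI) : ℝ →ₘ[muI] ℂ) ∈ Lp ℂ α muI := (Lp ℂ α muI).zero_mem
  constructor
  · have h := hU.lip_beta e 0
    rw [sub_zero, hn β (by rintro rfl; simp at hβ), mul_one] at h
    exact (nrm_nonneg _ _).trans h
  · have h := hU.lip_alpha e 0 heα h0α
    rw [sub_zero, hn α (by rintro rfl; simp at hα), mul_one] at h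
    exact (nrm_nonneg _ _).trans h

lemma lip_beta_enorm [Fact (1 ≤ β)] (hM : 0 ≤ M₀) (hU : Admissible β α M₀ M₁ U)
    (x y : Lp ℂ β muI) :
    eLpNorm (U x - U y : Lp ℂ β muI) β muI ≤
      ENNReal.ofReal M₀ * eLpNorm (x - y : Lp ℂ β muI) β muI := by
  rw [eLpNorm_eq_ofReal_nrm (Subtype.mem _), eLpNorm_eq_ofReal_nrm (Subtype.mem _),
    ← ENNReal.ofReal_mul hM]
  exact ENNReal.ofReal_le_ofReal (hU.lip_beta x y)

/-- The key point: the `L^α` Lipschitz estimate holds for all pairs in `L^β` whose difference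
lies in `L^α`. -/
lemma lip_alpha_extended [Fact (1 ≤ β)] (hβt : β ≠ ∞) (hM0 : 0 ≤ M₀) (hM : 0 ≤ M₁)
    (hU : Admissible β α M₀ M₁ U)
    (y B : Lp ℂ β muI) (hB : (B : ℝ →ₘ[muI] ℂ) ∈ Lp ℂ α muI) :
    eLpNorm (U (y + B) - U y : Lp ℂ β muI) α muI ≤
      ENNReal.ofReal M₁ * eLpNorm (B : ℝ →ₘ[muI] ℂ) α muI := by
  -- approximate `y` by simple functions
  have hdense : y ∈ closure (Lp.simpleFunc ℂ β muI : Set (Lp ℂ β muI)) :=
    (Lp.simpleFunc.dense hβt) y
  obtain ⟨g, hg, hgy⟩ := mem_closure_iff_seq_limit.1 hdense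
  have hgα : ∀ n, ((g n : Lp ℂ β muI) : ℝ →ₘ[muI] ℂ) ∈ Lp ℂ α muI := by
    intro n
    rw [Lp.mem_Lp_iff_memLp]
    set s : Lp.simpleFunc ℂ β muI := ⟨g n, hg n⟩ with hs
    have h1 := Lp.simpleFunc.toSimpleFunc_eq_toFun s
    have h2 := (Lp.simpleFunc.toSimpleFunc s).memLp_of_isFiniteMeasure α muI
    exact h2.ae_eq h1
  have hcont : Continuous U := by
    have : LipschitzWith (Real.toNNReal M₀) U := by
      refine LipschitzWith.of_dist_le_mul fun x y => ?_
      rw [dist_eq_norm, dist_eq_norm, Real.coe_toNNReal _ hM0, Lp.norm_def, Lp.norm_def]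
      exact hU.lip_beta x y
    exact this.continuous
  have hlim : Tendsto (fun n => U (g n + B) - U (g n)) atTop (𝓝 (U (y + B) - U y)) := by
    refine Tendsto.sub ?_ ?_
    · exact (hcont.tendsto _).comp (hgy.add_const B)
    · exact (hcont.tendsto _).comp hgy
  obtain ⟨ns, -, hns⟩ := (tendstoInMeasure_of_tendsto_Lp hlim).exists_seq_tendsto_ae
  refine Lp.eLpNorm_le_of_ae_tendsto (u := atTop) (f := fun k ω =>
    (U (g (ns k) + B) - U (g (ns k)) : Lp ℂ β muI) ω) (Eventually.of_forall fun k => ?_)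
    (fun k => Lp.aestronglyMeasurable _) hns
  have hsumα : ((g (ns k) + B : Lp ℂ β muI) : ℝ →ₘ[muI] ℂ) ∈ Lp ℂ α muI :=
    (Lp ℂ α muI).add_mem (hgα _) hB
  have hkey := hU.lip_alpha (g (ns k) + B) (g (ns k)) hsumα (hgα _)
  rw [add_sub_cancel_left] at hkey
  have hdiff : ((U (g (ns k) + B) - U (g (ns k)) : Lp ℂ β muI) : ℝ →ₘ[muI] ℂ) ∈ Lp ℂ α muI :=
    (Lp ℂ α muI).sub_mem (hU.maps_alpha _ hsumα) (hU.maps_alpha _ (hgα _))
  have h3 := eLpNorm_eq_ofReal_nrm hdiff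
  have h4 := eLpNorm_eq_ofReal_nrm hB
  rw [h4, ← ENNReal.ofReal_mul hM]
  refine (le_of_eq h3).trans (ENNReal.ofReal_le_ofReal hkey)

end Main

section Main2

variable {β γ α : ℝ≥0∞} {M₀ M₁ : ℝ} {U : Lp ℂ β muI → Lp ℂ β muI}

lemma lintegral_ofReal_norm_rpow {p : ℝ≥0∞} (hp0 : p ≠ 0) (hpt : p ≠ ∞) (f : ℝ → ℂ) :
    ∫⁻ ω, ENNReal.ofReal (‖f ω‖ ^ p.toReal) ∂muI = eLpNorm f p muI ^ p.toReal := by
  have hp : 0 < p.toReal := ENNReal.toReal_pos hp0 hpt
  rw [eLpNorm_eq_lintegral_rpow_enorm_toReal hp0 hpt, ← ENNReal.rpow_mul, one_div,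
    inv_mul_cancel₀ hp.ne', ENNReal.rpow_one]
  refine lintegral_congr fun ω => ?_
  rw [← ofReal_norm, ENNReal.ofReal_rpow_of_nonneg (norm_nonneg _) hp.le]

lemma distribution_bound [Fact (1 ≤ β)] (hβγ : β < γ) (hγα : γ < α) (hαt : α ≠ ∞)
    (hU : Admissible β α M₀ M₁ U) {M : ℝ} (hM : 0 < M) (hM0 : M₀ ≤ M) (hM1 : M₁ ≤ M)
    (x y : Lp ℂ β muI) (t : ℝ) (ht : 0 < t) :
    muI {ω | t < ‖(U x - U y : Lp ℂ β muI) ω‖} ≤
      ENNReal.ofReal (t ^ (-β.toReal)) *
        ∫⁻ ω in {ω | t < 2 * M * ‖(x - y : Lp ℂ β muI) ω‖},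
          ENNReal.ofReal ((2 * M * ‖(x - y : Lp ℂ β muI) ω‖) ^ β.toReal) ∂muI
      + ENNReal.ofReal (t ^ (-α.toReal)) *
        ∫⁻ ω in {ω | 2 * M * ‖(x - y : Lp ℂ β muI) ω‖ ≤ t},
          ENNReal.ofReal ((2 * M * ‖(x - y : Lp ℂ β muI) ω‖) ^ α.toReal) ∂muI := by
  have h1β : (1 : ℝ≥0∞) ≤ β := Fact.out
  have hβ0 : β ≠ 0 := by rintro rfl; simp at h1β
  have hβt : β ≠ ∞ := (hβγ.trans_le le_top).ne
  have h1α : (1 : ℝ≥0∞) ≤ α := h1β.trans (hβγ.trans hγα).le
  have hα0 : α ≠ 0 := by rintro rfl; simp at h1α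
  obtain ⟨hM0', hM1'⟩ := const_nonneg h1α hU
  set w : Lp ℂ β muI := x - y with hw
  have hwm : StronglyMeasurable (w : ℝ → ℂ) := Lp.stronglyMeasurable w
  set S : Set ℝ := {ω | 2 * M * ‖w ω‖ ≤ t} with hS
  have hSm : MeasurableSet S := by
    exact measurableSet_le (hwm.norm.measurable.const_mul _) measurable_const
  have hSc : Sᶜ = {ω | t < 2 * M * ‖w ω‖} := by
    ext ω; simp [hS]
  -- the bounded part
  have hBbd : ∀ ω, ‖S.indicator (w : ℝ → ℂ) ω‖ ≤ t / (2 * M) := by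
    intro ω
    by_cases h : ω ∈ S
    · rw [indicator_of_mem h, le_div_iff₀ (by positivity)]
      have : 2 * M * ‖w ω‖ ≤ t := h
      linarith
    · rw [indicator_of_notMem h, norm_zero]; positivity
  have hBmem : ∀ p, MemLp (S.indicator (w : ℝ → ℂ)) p muI := fun p =>
    MemLp.of_bound (hwm.indicator hSm).aestronglyMeasurable _ (Eventually.of_forall hBbd)
  set B : Lp ℂ β muI := (hBmem β).toLp _ with hB
  have hBae : (B : ℝ →ₘ[muI] ℂ) =ᵐ[muI] S.indicator (w : ℝ → ℂ) := (hBmem β).coeFn_toLp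
  have hBα : (B : ℝ →ₘ[muI] ℂ) ∈ Lp ℂ α muI := by
    rw [Lp.mem_Lp_iff_memLp]
    exact (hBmem α).ae_eq hBae.symm
  have hAae : (x - (y + B) : Lp ℂ β muI) =ᵐ[muI] Sᶜ.indicator (w : ℝ → ℂ) := by
    have h1 : x - (y + B) = w - B := by rw [hw]; abel
    rw [h1]
    filter_upwards [Lp.coeFn_sub w B, hBae] with ω h2 h3
    rw [h2, Pi.sub_apply, h3]
    by_cases h : ω ∈ S
    · simp [h]
    · simp [h]
  have hv : U x - U y = (U x - U (y + B)) + (U (y + B) - U y) := by abel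
  set v₀ : Lp ℂ β muI := U x - U (y + B) with hv₀
  set v₁ : Lp ℂ β muI := U (y + B) - U y with hv₁
  -- norm estimates
  have e0 : eLpNorm v₀ β muI ≤ ENNReal.ofReal M * eLpNorm (Sᶜ.indicator (w : ℝ → ℂ)) β muI := by
    refine (lip_beta_enorm hM0' hU x (y + B)).trans ?_
    rw [eLpNorm_congr_ae hAae]
    gcongr
  have e1 : eLpNorm v₁ α muI ≤ ENNReal.ofReal M * eLpNorm (S.indicator (w : ℝ → ℂ)) α muI := by
    refine (lip_alpha_extended hβt hM0' hM1' hU y B hBα).trans ?_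
    rw [eLpNorm_congr_ae hBae]
    gcongr
  -- Chebyshev
  have ht2 : ENNReal.ofReal (t / 2) ≠ 0 := by
    rw [Ne, ENNReal.ofReal_eq_zero, not_le]; positivity
  have c0 := meas_ge_le_mul_pow_eLpNorm_enorm muI hβ0 hβt (Lp.aestronglyMeasurable v₀) ht2
    (fun h => absurd h ENNReal.ofReal_ne_top)
  have c1 := meas_ge_le_mul_pow_eLpNorm_enorm muI hα0 hαt (Lp.aestronglyMeasurable v₁) ht2
    (fun h => absurd h ENNReal.ofReal_ne_top)
  have hsub : muI {ω | t < ‖(U x - U y : Lp ℂ β muI) ω‖} ≤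
      muI {ω | ENNReal.ofReal (t / 2) ≤ ‖v₀ ω‖ₑ} + muI {ω | ENNReal.ofReal (t / 2) ≤ ‖v₁ ω‖ₑ} := by
    refine (measure_mono_ae ?_).trans (measure_union_le _ _)
    have h1 := Lp.coeFn_add v₀ v₁
    rw [← hv] at h1
    filter_upwards [h1] with ω h2 h3
    have h3' : t < ‖(U x - U y : Lp ℂ β muI) ω‖ := h3
    show ENNReal.ofReal (t / 2) ≤ ‖v₀ ω‖ₑ ∨ ENNReal.ofReal (t / 2) ≤ ‖v₁ ω‖ₑ
    rw [← ofReal_norm, ← ofReal_norm,
      ENNReal.ofReal_le_ofReal_iff (norm_nonneg _), ENNReal.ofReal_le_ofReal_iff (norm_nonneg _)]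
    by_contra hcon
    push Not at hcon
    have h4 : ‖(U x - U y : Lp ℂ β muI) ω‖ ≤ ‖v₀ ω‖ + ‖v₁ ω‖ := by
      rw [h2]; exact norm_add_le _ _
    linarith [hcon.1, hcon.2]
  -- the final form of each piece
  have piece : ∀ (p : ℝ≥0∞) (hp0 : p ≠ 0) (hpt : p ≠ ∞) (T : Set ℝ) (hT : MeasurableSet T)
      (v : Lp ℂ β muI)
      (he : eLpNorm v p muI ≤ ENNReal.ofReal M * eLpNorm (T.indicator (w : ℝ → ℂ)) p muI),
      (ENNReal.ofReal (t / 2))⁻¹ ^ p.toReal * eLpNorm v p muI ^ p.toReal ≤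
      ENNReal.ofReal (t ^ (-p.toReal)) *
        ∫⁻ ω in T, ENNReal.ofReal ((2 * M * ‖w ω‖) ^ p.toReal) ∂muI := by
    intro p hp0 hpt T hT v he
    have hp : 0 < p.toReal := ENNReal.toReal_pos hp0 hpt
    calc (ENNReal.ofReal (t / 2))⁻¹ ^ p.toReal * eLpNorm v p muI ^ p.toReal
        ≤ (ENNReal.ofReal (t / 2))⁻¹ ^ p.toReal *
          (ENNReal.ofReal M * eLpNorm (T.indicator (w : ℝ → ℂ)) p muI) ^ p.toReal := by
          gcongr
      _ = ENNReal.ofReal ((t / 2)⁻¹ ^ p.toReal * M ^ p.toReal) *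
          ∫⁻ ω, ENNReal.ofReal (‖T.indicator (w : ℝ → ℂ) ω‖ ^ p.toReal) ∂muI := by
          rw [ENNReal.mul_rpow_of_nonneg _ _ hp.le, lintegral_ofReal_norm_rpow hp0 hpt,
            ← ENNReal.ofReal_inv_of_pos (by positivity),
            ENNReal.ofReal_rpow_of_nonneg (by positivity) hp.le,
            ENNReal.ofReal_rpow_of_nonneg hM.le hp.le, ← mul_assoc,
            ← ENNReal.ofReal_mul (by positivity)]
      _ = ENNReal.ofReal (t ^ (-p.toReal)) *
          (ENNReal.ofReal ((2 * M) ^ p.toReal) *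
          ∫⁻ ω, ENNReal.ofReal (‖T.indicator (w : ℝ → ℂ) ω‖ ^ p.toReal) ∂muI) := by
          rw [← mul_assoc, ← ENNReal.ofReal_mul (by positivity)]
          congr 2
          rw [← Real.mul_rpow (by positivity) hM.le, Real.rpow_neg ht.le,
            ← Real.inv_rpow ht.le, ← Real.mul_rpow (by positivity) (by positivity)]
          congr 1
          field_simp
      _ = ENNReal.ofReal (t ^ (-p.toReal)) *
        ∫⁻ ω in T, ENNReal.ofReal ((2 * M * ‖w ω‖) ^ p.toReal) ∂muI := by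
          congr 1
          rw [← lintegral_indicator hT, ← lintegral_const_mul]
          · refine lintegral_congr fun ω => ?_
            by_cases h : ω ∈ T
            · simp only [indicator_of_mem h]
              rw [← ENNReal.ofReal_mul (by positivity),
                ← Real.mul_rpow (by positivity) (norm_nonneg _)]
            · simp only [indicator_of_notMem h, norm_zero]
              rw [Real.zero_rpow hp.ne']; simp
          · exact ((hwm.indicator hT).norm.measurable.pow_const _).ennreal_ofReal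
  calc muI {ω | t < ‖(U x - U y : Lp ℂ β muI) ω‖}
      ≤ _ := hsub
    _ ≤ _ := add_le_add c0 c1
    _ ≤ _ := by
      refine add_le_add ?_ ?_
      · rw [← hSc]
        exact piece β hβ0 hβt Sᶜ hSm.compl v₀ e0
      · exact piece α hα0 hαt S hSm v₁ e1

/-- **Answer to Q1 (affirmative).** For all exponents `1 ≤ β < γ < α < ∞`, the space `L^γ[0,1]` is
a Lipschitz interpolation space with some constant `C > 0` between `L^β[0,1]` and `L^α[0,1]`. -/
theorem lipschitz_interpolation : ∀ β γ α : ℝ≥0∞, 1 ≤ β → β < γ → γ < α → α < ∞ →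
    ∃ C : ℝ, 0 < C ∧ IsLipschitzInterpolation β γ α C := by
  intro β γ α h1β hβγ hγα hαt
  have : Fact (1 ≤ β) := ⟨h1β⟩
  have hβ0 : β ≠ 0 := by rintro rfl; simp at h1β
  have hγt : γ ≠ ∞ := (hγα.trans_le le_top).ne
  have hβt : β ≠ ∞ := (hβγ.trans_le le_top).ne
  have hγ0 : γ ≠ 0 := (pos_iff_ne_zero.2 hβ0 |>.trans hβγ).ne'
  have h1α : (1 : ℝ≥0∞) ≤ α := h1β.trans (hβγ.trans hγα).le
  have hb : 0 < β.toReal := ENNReal.toReal_pos hβ0 hβt
  have hbc : β.toReal < γ.toReal := (ENNReal.toReal_lt_toReal hβt hγt).2 hβγ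
  have hca : γ.toReal < α.toReal := (ENNReal.toReal_lt_toReal hγt hαt.ne).2 hγα
  have hc : 0 < γ.toReal := hb.trans hbc
  set K : ℝ := γ.toReal * (1 / (γ.toReal - β.toReal) + 1 / (α.toReal - γ.toReal)) with hK
  have hKpos : 0 < K := by
    have : 0 < γ.toReal - β.toReal := by linarith
    have : 0 < α.toReal - γ.toReal := by linarith
    positivity
  refine ⟨2 * K ^ (1 / γ.toReal), by positivity, ?_⟩
  intro M₀ M₁ U hU
  obtain ⟨hM0, hM1⟩ := const_nonneg h1α hU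
  -- the estimate in extended form
  have main : ∀ (M : ℝ), 0 < M → M₀ ≤ M → M₁ ≤ M → ∀ x y : Lp ℂ β muI,
      eLpNorm (U x - U y : Lp ℂ β muI) γ muI ≤
        ENNReal.ofReal (2 * K ^ (1 / γ.toReal) * M) * eLpNorm (x - y : Lp ℂ β muI) γ muI := by
    intro M hM hM0' hM1' x y
    have hfm : Measurable (fun ω => ‖(U x - U y : Lp ℂ β muI) ω‖) :=
      (Lp.stronglyMeasurable _).norm.measurable
    have hGm : Measurable (fun ω => 2 * M * ‖(x - y : Lp ℂ β muI) ω‖) :=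
      (Lp.stronglyMeasurable _).norm.measurable.const_mul _
    have h := interp_distribution (μ := muI) hfm (fun ω => norm_nonneg _) hGm
      (fun ω => by positivity) hb hbc hca
      (fun t ht => distribution_bound hβγ hγα hαt.ne hU hM hM0' hM1' x y t ht)
    rw [lintegral_ofReal_norm_rpow hγ0 hγt] at h
    have h2 : ∫⁻ ω, ENNReal.ofReal ((2 * M * ‖(x - y : Lp ℂ β muI) ω‖) ^ γ.toReal) ∂muI
        = ENNReal.ofReal ((2 * M) ^ γ.toReal) *
          eLpNorm (x - y : Lp ℂ β muI) γ muI ^ γ.toReal := by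
      rw [← lintegral_ofReal_norm_rpow hγ0 hγt, ← lintegral_const_mul]
      · refine lintegral_congr fun ω => ?_
        rw [← ENNReal.ofReal_mul (by positivity), ← Real.mul_rpow (by positivity) (norm_nonneg _)]
      · exact ((Lp.stronglyMeasurable _).norm.measurable.pow_const _).ennreal_ofReal
    rw [h2, ← hK] at h
    have h3 := ENNReal.rpow_le_rpow h (z := 1 / γ.toReal) (by positivity)
    rw [← ENNReal.rpow_mul, mul_one_div_cancel hc.ne', ENNReal.rpow_one] at h3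
    refine h3.trans (le_of_eq ?_)
    rw [← mul_assoc, ← ENNReal.ofReal_mul hKpos.le, ENNReal.mul_rpow_of_nonneg _ _ (by positivity),
      ← ENNReal.rpow_mul, mul_one_div_cancel hc.ne', ENNReal.rpow_one,
      ENNReal.ofReal_rpow_of_nonneg (by positivity) (by positivity)]
    congr 2
    rw [Real.mul_rpow hKpos.le (by positivity), ← Real.rpow_mul (by positivity),
      mul_one_div_cancel hc.ne', Real.rpow_one]
    ring
  -- `U` maps `L^γ` into `L^γ`
  have hmaps : ∀ x : Lp ℂ β muI, (x : ℝ →ₘ[muI] ℂ) ∈ Lp ℂ γ muI →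
      (U x : ℝ →ₘ[muI] ℂ) ∈ Lp ℂ γ muI := by
    intro x hx
    have h0α : ((0 : Lp ℂ β muI) : ℝ →ₘ[muI] ℂ) ∈ Lp ℂ α muI := (Lp ℂ α muI).zero_mem
    have hU0 : ((U 0 : Lp ℂ β muI) : ℝ →ₘ[muI] ℂ) ∈ Lp ℂ γ muI :=
      mem_of_le hγα.le (hU.maps_alpha 0 h0α)
    have h := main (max M₀ M₁ + 1) (by positivity) (by linarith [le_max_left M₀ M₁])
      (by linarith [le_max_right M₀ M₁]) x 0
    rw [sub_zero] at h
    have h1 : ((U x - U 0 : Lp ℂ β muI) : ℝ →ₘ[muI] ℂ) ∈ Lp ℂ γ muI := by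
      rw [Lp.mem_Lp_iff_eLpNorm_lt_top]
      refine h.trans_lt ?_
      exact ENNReal.mul_lt_top ENNReal.ofReal_lt_top (Lp.mem_Lp_iff_eLpNorm_lt_top.1 hx)
    have h2 : (U x : ℝ →ₘ[muI] ℂ) = ((U x - U 0 : Lp ℂ β muI) : ℝ →ₘ[muI] ℂ) +
        ((U 0 : Lp ℂ β muI) : ℝ →ₘ[muI] ℂ) := by
      have : U x = (U x - U 0) + U 0 := by abel
      conv_lhs => rw [this]
      rfl
    rw [h2]
    exact (Lp ℂ γ muI).add_mem h1 hU0
  refine ⟨hmaps, fun x y hx hy => ?_⟩
  have hxy : ((x - y : Lp ℂ β muI) : ℝ →ₘ[muI] ℂ) ∈ Lp ℂ γ muI := (Lp ℂ γ muI).sub_mem hx hy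
  have hUxy : ((U x - U y : Lp ℂ β muI) : ℝ →ₘ[muI] ℂ) ∈ Lp ℂ γ muI :=
    (Lp ℂ γ muI).sub_mem (hmaps x hx) (hmaps y hy)
  have hreal : ∀ M : ℝ, max M₀ M₁ < M →
      nrm γ (U x - U y : Lp ℂ β muI) ≤
        2 * K ^ (1 / γ.toReal) * M * nrm γ (x - y : Lp ℂ β muI) := by
    intro M hM
    have hM' : 0 < M := lt_of_le_of_lt (hM0.trans (le_max_left _ _)) hM
    have h := main M hM' ((le_max_left _ _).trans hM.le) ((le_max_right _ _).trans hM.le) x y
    have h5 := eLpNorm_eq_ofReal_nrm hUxy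
    have h6 := eLpNorm_eq_ofReal_nrm hxy
    rw [h6, ← ENNReal.ofReal_mul (by positivity)] at h
    have h7 := (le_of_eq h5.symm).trans h
    rwa [ENNReal.ofReal_le_ofReal_iff (by
      have := nrm_nonneg γ (x - y : Lp ℂ β muI)
      positivity)] at h7
  have hlim : Tendsto (fun M : ℝ => 2 * K ^ (1 / γ.toReal) * M * nrm γ (x - y : Lp ℂ β muI))
      (𝓝[>] (max M₀ M₁)) (𝓝 (2 * K ^ (1 / γ.toReal) * max M₀ M₁ *
        nrm γ (x - y : Lp ℂ β muI))) := by
    have : Continuous (fun M : ℝ => 2 * K ^ (1 / γ.toReal) * M *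
        nrm γ (x - y : Lp ℂ β muI)) := by fun_prop
    exact (this.tendsto _).mono_left nhdsWithin_le_nhds
  exact ge_of_tendsto hlim (by
    filter_upwards [self_mem_nhdsWithin] with M hM
    exact hreal M hM)

end Main2

end Pool.Agent.Lib.MP_6e3e44_an
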